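import Pool.Agent.H172R2.ZS.Defs
import Pool.Agent.H172R2.ZS.GAU

/-!
# Zonoid Spencer: cover of a ball by translates of the zonotope (helper329)
-/

set_option autoImplicit false

open Finset MeasureTheory
open scoped RealInnerProductSpace

namespace Pool.Agent.U329.ZS

open Pool.Agent.H172R2.ZS

/-- the translate `z + r Z` -/
def tr {d m : ℕ} (c : Fin m → ℝ) (a : Fin m → E d) (r : ℝ) (z : E d) : Set (E d) :=
  {x : E d | ∃ y ∈ Zon (fun j => c j • a j), x = z + r • y}

theorem tr_compact {d m : ℕ} (c : Fin m → ℝ) (a : Fin m → E d) (r : ℝ) (z : E d) :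
    IsCompact (tr c a r z) := by
  have h1 : IsCompact (Set.univ.pi fun _ : Fin m => Set.Icc (-1 : ℝ) 1) :=
    isCompact_univ_pi fun _ => isCompact_Icc
  have h2 := h1.image (f := fun t : Fin m → ℝ => z + r • ∑ j, t j • (c j • a j)) (by fun_prop)
  convert h2 using 1
  ext x
  constructor
  · rintro ⟨y, ⟨t, ht, rfl⟩, rfl⟩
    exact ⟨t, fun j _ => ht j, rfl⟩
  · rintro ⟨t, ht, rfl⟩
    exact ⟨_, ⟨t, fun j => ht j (Set.mem_univ j), rfl⟩, rfl⟩

theorem gauss_pos (d : ℕ) : 0 < ∫ x : E d, Real.exp (-‖x‖ ^ 2 / 2) := by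
  rw [integral_pos_iff_support_of_nonneg (fun x => (Real.exp_pos _).le)
    (GAUaux.integrable_gauss d)]
  have : Function.support (fun x : E d => Real.exp (-‖x‖ ^ 2 / 2)) = Set.univ := by
    ext x
    simp [Real.exp_ne_zero]
  rw [this]
  exact isOpen_univ.measure_pos _ Set.univ_nonempty

theorem card_le {d m : ℕ} (hG : S_GAU) (c : Fin m → ℝ) (a : Fin m → E d) (hL : Lew c a)
    (ρ r : ℝ) (hρ : 0 ≤ ρ) (hr : 0 < r) (F : Finset (E d)) (hF : ∀ z ∈ F, ‖z‖ ≤ ρ)
    (hd : ∀ z ∈ F, ∀ w ∈ F, z ≠ w → Disjoint (tr c a r z) (tr c a r w)) :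
    (F.card : ℝ) ≤ Real.exp (ρ ^ 2 / 2 + 9 * d / (8 * r ^ 2)) := by
  set W := ∫ x : E d, Real.exp (-‖x‖ ^ 2 / 2) with hW
  have hW0 : 0 < W := gauss_pos d
  have h1 : ∀ z ∈ F, Real.exp (-(ρ ^ 2 / 2 + 9 * d / (8 * r ^ 2))) * W ≤
      ∫ x in tr c a r z, Real.exp (-‖x‖ ^ 2 / 2) := by
    intro z hz
    refine le_trans ?_ (hG d m c a hL r z hr)
    refine mul_le_mul_of_nonneg_right (Real.exp_le_exp.2 ?_) hW0.le
    have h3 : ‖z‖ ^ 2 ≤ ρ ^ 2 := by
      have := hF z hz
      have h0 := norm_nonneg z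
      nlinarith
    linarith
  have h2 : ∑ z ∈ F, ∫ x in tr c a r z, Real.exp (-‖x‖ ^ 2 / 2) ≤ W := by
    rw [← integral_biUnion_finset F (fun z _ => (tr_compact c a r z).isClosed.measurableSet)
      (fun z hz w hw hzw => hd z hz w hw hzw)
      (fun z _ => (GAUaux.integrable_gauss d).integrableOn)]
    exact setIntegral_le_integral (GAUaux.integrable_gauss d)
      (Filter.Eventually.of_forall fun x => (Real.exp_pos _).le)
  have h3 := Finset.sum_le_sum h1
  rw [Finset.sum_const, nsmul_eq_mul] at h3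
  have h4 : (F.card : ℝ) * Real.exp (-(ρ ^ 2 / 2 + 9 * d / (8 * r ^ 2))) ≤ 1 := by
    have h5 : (F.card : ℝ) * Real.exp (-(ρ ^ 2 / 2 + 9 * d / (8 * r ^ 2))) * W ≤ 1 * W := by
      linarith
    exact le_of_mul_le_mul_right h5 hW0
  rw [Real.exp_neg] at h4
  rwa [← div_eq_mul_inv, div_le_one (Real.exp_pos _)] at h4

theorem CVR_ok (hG : S_GAU) : S_CVR := by
  classical
  intro d m c a hL ρ r hρ hr
  by_contra hcon
  push Not at hcon
  have key : ∀ n : ℕ, ∃ F : Finset (E d), F.card = n ∧ (∀ z ∈ F, ‖z‖ ≤ ρ) ∧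
      ∀ z ∈ F, ∀ w ∈ F, z ≠ w → Disjoint (tr c a r z) (tr c a r w) := by
    intro n
    induction n with
    | zero => exact ⟨∅, by simp, by simp, by simp⟩
    | succ n ih =>
      obtain ⟨F, hc, hF, hd⟩ := ih
      obtain ⟨x, hx, hx2⟩ := hcon F (card_le hG c a hL ρ r hρ hr F hF hd)
      have hsep : ∀ y ∈ F, Disjoint (tr c a r x) (tr c a r y) := by
        intro y hy
        rw [Set.disjoint_left]
        rintro w ⟨p, ⟨t, ht, rfl⟩, h1⟩ ⟨q, ⟨s, hs, rfl⟩, h2⟩
        refine hx2 y hy (fun j => r * (s j - t j)) ?_ ?_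
        · intro j
          have := ht j
          have := hs j
          rw [abs_le]
          simp only [Set.mem_Icc] at *
          constructor <;> nlinarith
        · have h3 : x + r • ∑ j, t j • (c j • a j) = y + r • ∑ j, s j • (c j • a j) := by
            rw [← h1, ← h2]
          have h4 : x - y = r • ∑ j, s j • (c j • a j) - r • ∑ j, t j • (c j • a j) := by
            rw [sub_eq_sub_iff_add_eq_add, add_comm (r • _), h3]
          rw [h4, ← smul_sub, ← Finset.sum_sub_distrib, Finset.smul_sum]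
          refine Finset.sum_congr rfl fun j _ => ?_
          rw [← sub_smul, smul_smul, smul_smul]
          congr 1
          ring
      have hxF : x ∉ F := by
        intro hxF
        refine hx2 x hxF (fun _ => 0) (fun j => by simp [hr.le]) (by simp)
      refine ⟨insert x F, by rw [Finset.card_insert_of_notMem hxF, hc], ?_, ?_⟩
      · intro z hz
        rcases Finset.mem_insert.1 hz with rfl | hz
        · exact hx
        · exact hF z hz
      · intro z hz w hw hzw
        rcases Finset.mem_insert.1 hz with hz1 | hz1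
        · rcases Finset.mem_insert.1 hw with hw1 | hw1
          · exact absurd (hz1.trans hw1.symm) hzw
          · rw [hz1]; exact hsep w hw1
        · rcases Finset.mem_insert.1 hw with hw1 | hw1
          · rw [hw1]; exact (hsep z hz1).symm
          · exact hd z hz1 w hw1 hzw
  obtain ⟨n, hn⟩ := exists_nat_gt (Real.exp (ρ ^ 2 / 2 + 9 * d / (8 * r ^ 2)))
  obtain ⟨F, hc, hF, hd⟩ := key n
  have := card_le hG c a hL ρ r hρ hr F hF hd
  rw [hc] at this
  linarith

end Pool.Agent.U329.ZS
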