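import Pool.Agent.H172R2.ZS.Defs

/-!
# Zonoid Spencer: the sixth moment of a Rademacher sum (helper329)
-/

set_option autoImplicit false

open Finset
open scoped RealInnerProductSpace

namespace Pool.Agent.U329.ZS

open Pool.Agent.H172R2.ZS

theorem sum_sg_mul {J : Type} [Fintype J] [DecidableEq J] (a : J) (h : (J → Bool) → ℝ)
    (hh : ∀ ε b, h (Function.update ε a b) = h ε) :
    ∑ ε : J → Bool, sg (ε a) * h ε = 0 := by
  have h1 : ∑ ε : J → Bool, sg (ε a) * h ε = ∑ ε : J → Bool, -(sg (ε a) * h ε) := by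
    refine Finset.sum_bij' (fun ε _ => Function.update ε a (!ε a))
      (fun ε _ => Function.update ε a (!ε a)) (fun _ _ => Finset.mem_univ _)
      (fun _ _ => Finset.mem_univ _) ?_ ?_ ?_
    · intro ε _
      simp
    · intro ε _
      simp
    · intro ε _
      rw [hh]
      simp only [Function.update_self]
      cases ε a <;> simp [sg]
  rw [Finset.sum_neg_distrib] at h1
  linarith

theorem moments {J : Type} [Fintype J] [DecidableEq J] (f : J → ℝ) (hf : ∀ g, |f g| ≤ 1)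
    (s : Finset J) :
    ∑ ε : J → Bool, (∑ g ∈ s, sg (ε g) * f g) ^ 2 ≤ 2 ^ (Fintype.card J) * (s.card : ℝ) ∧
    ∑ ε : J → Bool, (∑ g ∈ s, sg (ε g) * f g) ^ 4 ≤
      2 ^ (Fintype.card J) * (3 * (s.card : ℝ) ^ 2) ∧
    ∑ ε : J → Bool, (∑ g ∈ s, sg (ε g) * f g) ^ 6 ≤
      2 ^ (Fintype.card J) * (15 * (s.card : ℝ) ^ 3) := by
  induction s using Finset.induction_on with
  | empty => simp
  | insert a s ha ih =>
    obtain ⟨i2, i4, i6⟩ := ih
    have hcard : ((insert a s).card : ℝ) = s.card + 1 := by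
      rw [Finset.card_insert_of_notMem ha]
      push_cast
      ring
    rw [hcard]
    obtain ⟨S, hS⟩ : ∃ S : (J → Bool) → ℝ, S = fun ε => ∑ g ∈ s, sg (ε g) * f g := ⟨_, rfl⟩
    have hSu : ∀ ε b, S (Function.update ε a b) = S ε := by
      intro ε b
      rw [hS]
      refine Finset.sum_congr rfl fun g hg => ?_
      rw [Function.update_of_ne (fun h : g = a => ha (h ▸ hg))]
    have e0 : ∀ ε : J → Bool, ∑ g ∈ insert a s, sg (ε g) * f g = sg (ε a) * f a + S ε := by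
      intro ε
      rw [Finset.sum_insert ha, hS]
    have sq : ∀ ε : J → Bool, sg (ε a) ^ 2 = 1 := by
      intro ε
      cases ε a <;> simp [sg]
    have i2' : ∑ ε : J → Bool, (S ε) ^ 2 ≤ 2 ^ (Fintype.card J) * (s.card : ℝ) := by
      rw [hS]; exact i2
    have i4' : ∑ ε : J → Bool, (S ε) ^ 4 ≤ 2 ^ (Fintype.card J) * (3 * (s.card : ℝ) ^ 2) := by
      rw [hS]; exact i4
    have i6' : ∑ ε : J → Bool, (S ε) ^ 6 ≤ 2 ^ (Fintype.card J) * (15 * (s.card : ℝ) ^ 3) := by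
      rw [hS]; exact i6
    have hfa : (f a) ^ 2 ≤ 1 := by
      have := hf a
      rw [← sq_abs]
      have h0 := abs_nonneg (f a)
      nlinarith
    have hfa0 : 0 ≤ (f a) ^ 2 := sq_nonneg _
    obtain ⟨p, hp⟩ : ∃ p, p = (f a) ^ 2 := ⟨_, rfl⟩
    rw [← hp] at hfa hfa0
    have hcardJ : (∑ ε : J → Bool, (1 : ℝ)) = 2 ^ (Fintype.card J) := by
      simp
    obtain ⟨N, hN⟩ : ∃ N : ℝ, N = 2 ^ (Fintype.card J) := ⟨_, rfl⟩
    have hN0 : 0 ≤ N := by rw [hN]; positivity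
    rw [← hN] at i2' i4' i6' hcardJ ⊢
    obtain ⟨n, hn⟩ : ∃ n : ℝ, n = s.card := ⟨_, rfl⟩
    have hn0 : 0 ≤ n := by rw [hn]; positivity
    rw [← hn] at i2' i4' i6' ⊢
    have q2 : 0 ≤ ∑ ε : J → Bool, (S ε) ^ 2 := Finset.sum_nonneg fun _ _ => by positivity
    have q4 : 0 ≤ ∑ ε : J → Bool, (S ε) ^ 4 := Finset.sum_nonneg fun _ _ => by positivity
    refine ⟨?_, ?_, ?_⟩
    · have e1 : ∑ ε : J → Bool, (∑ g ∈ insert a s, sg (ε g) * f g) ^ 2 =
          p * ∑ ε : J → Bool, (1 : ℝ) + ∑ ε : J → Bool, (S ε) ^ 2 +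
            ∑ ε : J → Bool, sg (ε a) * (2 * f a * S ε) := by
        rw [Finset.mul_sum, ← Finset.sum_add_distrib, ← Finset.sum_add_distrib]
        refine Finset.sum_congr rfl fun ε _ => ?_
        rw [e0, hp]
        linear_combination (f a) ^ 2 * sq ε
      rw [e1, sum_sg_mul a _ (fun ε b => by rw [hSu]), hcardJ]
      nlinarith
    · have e1 : ∑ ε : J → Bool, (∑ g ∈ insert a s, sg (ε g) * f g) ^ 4 =
          p ^ 2 * ∑ ε : J → Bool, (1 : ℝ) + 6 * p * ∑ ε : J → Bool, (S ε) ^ 2 +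
            ∑ ε : J → Bool, (S ε) ^ 4 +
            ∑ ε : J → Bool, sg (ε a) * (4 * (f a) ^ 3 * S ε + 4 * f a * S ε ^ 3) := by
        rw [Finset.mul_sum, Finset.mul_sum, ← Finset.sum_add_distrib, ← Finset.sum_add_distrib,
          ← Finset.sum_add_distrib]
        refine Finset.sum_congr rfl fun ε _ => ?_
        rw [e0, hp]
        linear_combination ((f a) ^ 4 * (sg (ε a) ^ 2 + 1) + 6 * (f a) ^ 2 * (S ε) ^ 2 +
          4 * sg (ε a) * (f a) ^ 3 * S ε) * sq ε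
      rw [e1, sum_sg_mul a _ (fun ε b => by rw [hSu]), hcardJ]
      have h1 : p ^ 2 ≤ 1 := by nlinarith
      have h2 : p * ∑ ε : J → Bool, (S ε) ^ 2 ≤ 1 * (N * n) :=
        mul_le_mul hfa i2' q2 (by norm_num)
      have h3 : p ^ 2 * N ≤ 1 * N := mul_le_mul_of_nonneg_right h1 hN0
      nlinarith
    · have e1 : ∑ ε : J → Bool, (∑ g ∈ insert a s, sg (ε g) * f g) ^ 6 =
          p ^ 3 * ∑ ε : J → Bool, (1 : ℝ) + 15 * p ^ 2 * ∑ ε : J → Bool, (S ε) ^ 2 +
            15 * p * ∑ ε : J → Bool, (S ε) ^ 4 + ∑ ε : J → Bool, (S ε) ^ 6 +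
            ∑ ε : J → Bool, sg (ε a) * (6 * (f a) ^ 5 * S ε + 20 * (f a) ^ 3 * S ε ^ 3 +
              6 * f a * S ε ^ 5) := by
        rw [Finset.mul_sum, Finset.mul_sum, Finset.mul_sum, ← Finset.sum_add_distrib,
          ← Finset.sum_add_distrib, ← Finset.sum_add_distrib, ← Finset.sum_add_distrib]
        refine Finset.sum_congr rfl fun ε _ => ?_
        rw [e0, hp]
        rcases Bool.eq_false_or_eq_true (ε a) with h | h
        · rw [h]; simp only [sg, if_true]; ring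
        · rw [h]; simp only [sg, Bool.false_eq_true, if_false]; ring
      rw [e1, sum_sg_mul a _ (fun ε b => by rw [hSu]), hcardJ]
      have h1 : p ^ 2 ≤ 1 := by nlinarith
      have h1' : p ^ 3 ≤ 1 := by nlinarith
      have h2 : p ^ 2 * ∑ ε : J → Bool, (S ε) ^ 2 ≤ 1 * (N * n) :=
        mul_le_mul h1 i2' q2 (by norm_num)
      have h4 : p * ∑ ε : J → Bool, (S ε) ^ 4 ≤ 1 * (N * (3 * n ^ 2)) :=
        mul_le_mul hfa i4' q4 (by norm_num)
      have h3 : p ^ 3 * N ≤ 1 * N := mul_le_mul_of_nonneg_right h1' hN0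
      have h5 : 0 ≤ N * n := by positivity
      nlinarith

theorem M6_ok : S_M6 := by
  intro J _ _ f hf
  have := (moments f hf Finset.univ).2.2
  simpa using this

end Pool.Agent.U329.ZS
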