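import Pool.Agent.H172R2.ZS.Defs

/-!
# Zonoid Spencer: full colouring in Lewis position (helper329)
-/

set_option autoImplicit false

open Finset
open scoped RealInnerProductSpace

namespace Pool.Agent.U329.ZS

open Pool.Agent.H172R2.ZS

theorem pow_sixth : (9 / 10 : ℝ) ^ (1 / 6 : ℝ) ≤ 1 - 1 / 60 := by
  have h1 : (9 / 10 : ℝ) ^ (1 / 6 : ℝ) ≤ ((1 - 1 / 60 : ℝ) ^ (6 : ℝ)) ^ (1 / 6 : ℝ) := by
    refine Real.rpow_le_rpow (by norm_num) ?_ (by norm_num)
    norm_num
  rw [← Real.rpow_mul (by norm_num)] at h1
  norm_num at h1 ⊢
  exact h1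

theorem MAIN_ok (h : S_PC) : S_MAIN := by
  classical
  refine ⟨1620, by norm_num, ?_⟩
  intro d m c a hL
  have key : ∀ N : ℕ, ∀ (J : Type) [Fintype J] [DecidableEq J] (f : J → Fin m → ℝ),
      Fintype.card J = N → Fintype.card J ≤ d → (∀ g j, |f g j| ≤ 1) →
      ∃ ε : J → ℝ, (∀ g, ε g = 1 ∨ ε g = -1) ∧
        ∃ t : Fin m → ℝ,
          (∀ j, |t j| ≤ 1620 * (d : ℝ) ^ (1 / 3 : ℝ) * (Fintype.card J : ℝ) ^ (1 / 6 : ℝ)) ∧
          ∑ g, ε g • ∑ j, (c j * f g j) • a j = ∑ j, (c j * t j) • a j := by
    intro N
    induction N using Nat.strong_induction_on with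
    | _ N ih =>
      intro J _ _ f hN hJd hf
      rcases Nat.lt_or_ge (Fintype.card J) 4 with h4 | h4
      · refine ⟨fun _ => 1, fun _ => Or.inl rfl, fun j => ∑ g, f g j, ?_, ?_⟩
        · intro j
          have h1 : |∑ g, f g j| ≤ Fintype.card J := by
            refine (Finset.abs_sum_le_sum_abs _ _).trans ?_
            refine (Finset.sum_le_sum fun g _ => hf g j).trans ?_
            simp
          rcases Nat.eq_zero_or_pos (Fintype.card J) with h0 | h0
          · rw [h0] at h1
            simp only [Nat.cast_zero] at h1
            refine h1.trans ?_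
            positivity
          · have h2 : (1 : ℝ) ≤ (Fintype.card J : ℝ) ^ (1 / 6 : ℝ) :=
              Real.one_le_rpow (by exact_mod_cast h0) (by norm_num)
            have h3 : (1 : ℝ) ≤ (d : ℝ) ^ (1 / 3 : ℝ) :=
              Real.one_le_rpow (by exact_mod_cast (h0.trans_le hJd)) (by norm_num)
            have h5 : (Fintype.card J : ℝ) ≤ 3 := by exact_mod_cast (by omega : Fintype.card J ≤ 3)
            nlinarith
        · simp_rw [one_smul]
          rw [Finset.sum_comm]
          refine Finset.sum_congr rfl fun j _ => ?_
          rw [← Finset.sum_smul, Finset.mul_sum]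
      · obtain ⟨x, hx, hxc, t, ht, hxt⟩ := h d m c a hL J f h4 hJd hf
        have hcard : ((Finset.univ.filter fun g => x g ≠ 0).card : ℝ) +
            (Fintype.card {g : J // x g = 0} : ℝ) = Fintype.card J := by
          rw [Fintype.card_subtype]
          have := Finset.card_filter_add_card_filter_not (s := (Finset.univ : Finset J))
            (fun g => x g = 0)
          rw [Finset.card_univ] at this
          rw [add_comm]
          exact_mod_cast this
        have hJ0 : (0 : ℝ) < Fintype.card J := by exact_mod_cast (by omega : 0 < Fintype.card J)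
        have hle : (Fintype.card {g : J // x g = 0} : ℝ) ≤ 9 / 10 * Fintype.card J := by linarith
        have hlt : Fintype.card {g : J // x g = 0} < Fintype.card J := by
          have : (Fintype.card {g : J // x g = 0} : ℝ) < Fintype.card J := by linarith
          exact_mod_cast this
        obtain ⟨ε', hε', t', ht', hxt'⟩ := ih _ (hN ▸ hlt) {g : J // x g = 0}
          (fun g => f g.1) rfl (hlt.le.trans hJd) (fun g j => hf g.1 j)
        refine ⟨fun g => if hg : x g = 0 then ε' ⟨g, hg⟩ else x g, ?_, fun j => t j + t' j, ?_, ?_⟩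
        · intro g
          by_cases hg : x g = 0
          · simp only [hg, dif_pos]
            exact hε' _
          · simp only [hg, dif_neg, not_false_eq_true]
            rcases hx g with h1 | h1 | h1
            · exact absurd h1 hg
            · exact Or.inl h1
            · exact Or.inr h1
        · intro j
          have e1 : (Fintype.card {g : J // x g = 0} : ℝ) ^ (1 / 6 : ℝ) ≤
              (1 - 1 / 60) * (Fintype.card J : ℝ) ^ (1 / 6 : ℝ) := by
            refine (Real.rpow_le_rpow (by positivity) hle (by norm_num)).trans ?_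
            rw [Real.mul_rpow (by norm_num) (by positivity)]
            exact mul_le_mul_of_nonneg_right pow_sixth (by positivity)
          have e2 := ht j
          have e3 := ht' j
          have e4 : 0 ≤ (d : ℝ) ^ (1 / 3 : ℝ) := by positivity
          have e5 : 1620 * (d : ℝ) ^ (1 / 3 : ℝ) *
              (Fintype.card {g : J // x g = 0} : ℝ) ^ (1 / 6 : ℝ) ≤
              1620 * (d : ℝ) ^ (1 / 3 : ℝ) * ((1 - 1 / 60) * (Fintype.card J : ℝ) ^ (1 / 6 : ℝ)) :=
            mul_le_mul_of_nonneg_left e1 (by positivity)
          have e6 : 3 * sc (Fintype.card J) d =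
              27 * (d : ℝ) ^ (1 / 3 : ℝ) * (Fintype.card J : ℝ) ^ (1 / 6 : ℝ) := by
            unfold sc; ring
          rw [e6] at e2
          have e7 := abs_add_le (t j) (t' j)
          linarith
        · have e1 : ∀ g : J, (if hg : x g = 0 then ε' ⟨g, hg⟩ else x g) •
              ∑ j, (c j * f g j) • a j = x g • ∑ j, (c j * f g j) • a j +
              (if hg : x g = 0 then ε' ⟨g, hg⟩ • ∑ j, (c j * f g j) • a j else 0) := by
            intro g
            by_cases hg : x g = 0
            · simp only [hg, dif_pos, zero_smul, zero_add]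
            · simp only [hg, dif_neg, not_false_eq_true, add_zero]
          rw [Finset.sum_congr rfl fun g _ => e1 g, Finset.sum_add_distrib, hxt]
          have e2 : ∑ g : J, (if hg : x g = 0 then ε' ⟨g, hg⟩ • ∑ j, (c j * f g j) • a j else 0) =
              ∑ g : {g : J // x g = 0}, ε' g • ∑ j, (c j * f g.1 j) • a j := by
            rw [← Finset.sum_filter_add_sum_filter_not Finset.univ (fun g => x g = 0)]
            have z : ∑ g ∈ Finset.univ.filter (fun g => ¬ x g = 0),
                (if hg : x g = 0 then ε' ⟨g, hg⟩ • ∑ j, (c j * f g j) • a j else 0) = 0 := by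
              refine Finset.sum_eq_zero fun g hg => ?_
              rw [dif_neg (Finset.mem_filter.1 hg).2]
            rw [z, add_zero]
            rw [← Finset.sum_subtype_eq_sum_filter]
            simp only [Finset.subtype_univ]
            refine Finset.sum_congr rfl fun g _ => ?_
            rw [dif_pos g.2]
          rw [e2, hxt', ← Finset.sum_add_distrib]
          refine Finset.sum_congr rfl fun j _ => ?_
          rw [← add_smul]
          congr 1
          ring
  intro J _ _ f hJ hf
  exact key _ J f rfl hJ hf

end Pool.Agent.U329.ZS
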