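import Pool.Agent.H172R2.ZS.Defs
import Pool.Agent.H172R2.ZS.BAS

/-!
# Zonoid Spencer: partial colouring (helper329)
-/

set_option autoImplicit false

open Finset
open scoped RealInnerProductSpace

namespace Pool.Agent.U329.ZS

open Pool.Agent.H172R2.ZS

/-- truncation at level `τ` -/
noncomputable def clip (τ s : ℝ) : ℝ := max (-τ) (min τ s)

theorem clip_abs {τ : ℝ} (hτ : 0 ≤ τ) (s : ℝ) : |clip τ s| ≤ τ := by
  unfold clip
  rw [abs_le]
  constructor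
  · exact le_max_left _ _
  · exact max_le (by linarith) (min_le_left _ _)

theorem rest_sq {τ : ℝ} (hτ : 0 < τ) (s : ℝ) : (s - clip τ s) ^ 2 ≤ s ^ 6 / τ ^ 4 := by
  have hs6 : 0 ≤ s ^ 6 := by positivity
  have h0 : 0 ≤ s ^ 6 / τ ^ 4 := by positivity
  rcases le_or_gt |s| τ with h | h
  · have : clip τ s = s := by
      unfold clip
      rw [abs_le] at h
      rw [min_eq_right h.2, max_eq_right h.1]
    rw [this]
    simpa using h0
  · have h1 : (s - clip τ s) ^ 2 ≤ s ^ 2 := by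
      unfold clip
      rcases le_or_gt 0 s with hs | hs
      · rw [abs_of_nonneg hs] at h
        rw [min_eq_left h.le, max_eq_right (by linarith)]
        nlinarith
      · rw [abs_of_neg hs] at h
        rw [min_eq_right (by linarith), max_eq_left (by linarith)]
        nlinarith
    refine h1.trans ?_
    rw [le_div_iff₀ (by positivity)]
    have h2 : τ ^ 4 ≤ s ^ 4 := by
      have : τ ^ 4 ≤ |s| ^ 4 := pow_le_pow_left₀ hτ.le h.le 4
      rwa [Even.pow_abs (by decide)] at this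
    have h3 : 0 ≤ s ^ 2 := sq_nonneg s
    nlinarith

theorem sc_cube (k d : ℕ) : sc k d ^ 3 = 729 * d * (k : ℝ) ^ (1 / 2 : ℝ) := by
  unfold sc
  rw [mul_pow, mul_pow, ← Real.rpow_natCast ((d : ℝ) ^ (1 / 3 : ℝ)) 3,
    ← Real.rpow_natCast ((k : ℝ) ^ (1 / 6 : ℝ)) 3, ← Real.rpow_mul (Nat.cast_nonneg _),
    ← Real.rpow_mul (Nat.cast_nonneg _)]
  norm_num

theorem sc_six (k d : ℕ) : sc k d ^ 6 = 531441 * (d : ℝ) ^ 2 * k := by
  have h : sc k d ^ 6 = (sc k d ^ 3) ^ 2 := by ring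
  have h2 : ((k : ℝ) ^ (1 / 2 : ℝ)) ^ 2 = k := by
    rw [← Real.rpow_natCast ((k : ℝ) ^ (1 / 2 : ℝ)) 2, ← Real.rpow_mul (Nat.cast_nonneg _)]
    norm_num
  calc sc k d ^ 6 = 531441 * (d : ℝ) ^ 2 * ((k : ℝ) ^ (1 / 2 : ℝ)) ^ 2 := by
        rw [h, sc_cube]; ring
    _ = _ := by rw [h2]

theorem sc_pos {k d : ℕ} (hk : 0 < k) (hd : 0 < d) : 0 < sc k d := by
  unfold sc
  positivity

theorem sg_cases (x y : Bool) : (sg x - sg y) / 2 = 0 ∨ (sg x - sg y) / 2 = 1 ∨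
    (sg x - sg y) / 2 = -1 := by
  cases x <;> cases y <;> norm_num [sg]

theorem sg_ne (x y : Bool) : (x ≠ y) ↔ (sg x - sg y) / 2 ≠ 0 := by
  cases x <;> cases y <;> norm_num [sg]

/-- pigeonhole -/
theorem pigeon {α β : Type} [DecidableEq β] (G : Finset α) (F : Finset β) (φ : α → β)
    (hφ : ∀ x ∈ G, φ x ∈ F) (T M : ℝ) (hT : T ≤ G.card) (hM : (F.card : ℝ) ≤ M) (hM0 : 0 < M)
    (hT0 : 0 < T) :
    ∃ y ∈ F, T / M ≤ ((G.filter fun x => φ x = y).card : ℝ) := by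
  by_contra hcon
  push Not at hcon
  have h1 : (G.card : ℝ) = ∑ y ∈ F, ((G.filter fun x => φ x = y).card : ℝ) := by
    rw [Finset.card_eq_sum_card_fiberwise hφ]
    push_cast
    rfl
  have hF : F.Nonempty := by
    by_contra hF
    rw [Finset.not_nonempty_iff_eq_empty] at hF
    rw [hF] at h1
    simp at h1
    rw [h1] at hT
    simp at hT
    linarith
  have h2 : ∑ y ∈ F, ((G.filter fun x => φ x = y).card : ℝ) < ∑ _y ∈ F, T / M :=
    Finset.sum_lt_sum_of_nonempty hF hcon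
  rw [Finset.sum_const, nsmul_eq_mul] at h2
  have h3 : (F.card : ℝ) * (T / M) ≤ M * (T / M) :=
    mul_le_mul_of_nonneg_right hM (by positivity)
  rw [mul_div_cancel₀ _ hM0.ne'] at h3
  linarith

theorem PC_ok (h6 : S_M6) (hB : S_BAS) (hC : S_CVR) (hH : S_HAM) : S_PC := by
  classical
  intro d m c a hL J _ _ f hJ4 hJd hf
  obtain ⟨k, hk⟩ : ∃ k : ℕ, k = Fintype.card J := ⟨_, rfl⟩
  rw [← hk] at hJ4 hJd ⊢
  have hk0 : 0 < k := by omega
  have hd0 : 0 < d := by omega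
  have hkR : (0 : ℝ) < k := by exact_mod_cast hk0
  have hdR : (0 : ℝ) < d := by exact_mod_cast hd0
  obtain ⟨bc, -, bn⟩ := hB d m c a hL
  obtain ⟨hc, -, -⟩ := id hL
  obtain ⟨τ, hτ⟩ : ∃ τ : ℝ, τ = sc k d := ⟨_, rfl⟩
  have hτ0 : 0 < τ := hτ ▸ sc_pos hk0 hd0
  have hτ6 : τ ^ 6 = 531441 * (d : ℝ) ^ 2 * k := by rw [hτ]; exact sc_six k d
  rw [← hτ]
  -- the sums
  obtain ⟨s, hs⟩ : ∃ s : (J → Bool) → Fin m → ℝ, s = fun ε j => ∑ g, sg (ε g) * f g j := ⟨_, rfl⟩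
  obtain ⟨R, hR⟩ : ∃ R : (J → Bool) → E d,
      R = fun ε => ∑ j, (c j * (s ε j - clip τ (s ε j))) • a j := ⟨_, rfl⟩
  have hRn : ∀ ε, ‖R ε‖ ^ 2 ≤ ∑ j, c j * (s ε j ^ 6 / τ ^ 4) := by
    intro ε
    rw [hR]
    refine (bn _).trans ?_
    exact Finset.sum_le_sum fun j _ => mul_le_mul_of_nonneg_left (rest_sq hτ0 _) (hc j)
  have hRs : ∑ ε, ‖R ε‖ ^ 2 ≤ 2 ^ k * (15 * (k : ℝ) ^ 3) * d / τ ^ 4 := by
    calc ∑ ε, ‖R ε‖ ^ 2 ≤ ∑ ε, ∑ j, c j * (s ε j ^ 6 / τ ^ 4) :=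
          Finset.sum_le_sum fun ε _ => hRn ε
      _ = ∑ j, c j * ((∑ ε, s ε j ^ 6) / τ ^ 4) := by
          rw [Finset.sum_comm]
          refine Finset.sum_congr rfl fun j _ => ?_
          rw [Finset.sum_div, Finset.mul_sum]
      _ ≤ ∑ j, c j * (2 ^ k * (15 * (k : ℝ) ^ 3) / τ ^ 4) := by
          refine Finset.sum_le_sum fun j _ => mul_le_mul_of_nonneg_left ?_ (hc j)
          refine div_le_div_of_nonneg_right ?_ (by positivity)
          have := h6 J (fun g => f g j) (fun g => hf g j)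
          rw [← hk] at this
          rw [hs]
          exact this
      _ = 2 ^ k * (15 * (k : ℝ) ^ 3) * d / τ ^ 4 := by
          rw [← Finset.sum_mul, bc]
          ring
  obtain ⟨ρ, hρ⟩ : ∃ ρ : ℝ, ρ = Real.sqrt (30 * (k : ℝ) ^ 3 * d / τ ^ 4) := ⟨_, rfl⟩
  have hρ2 : ρ ^ 2 = 30 * (k : ℝ) ^ 3 * d / τ ^ 4 := by
    rw [hρ]; exact Real.sq_sqrt (by positivity)
  have hρ0 : 0 < ρ := by
    rw [hρ]; exact Real.sqrt_pos.2 (by positivity)
  -- the good sign vectors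
  obtain ⟨G, hG⟩ : ∃ G : Finset (J → Bool), G = Finset.univ.filter fun ε => ‖R ε‖ ≤ ρ := ⟨_, rfl⟩
  have hGc : (2 : ℝ) ^ k / 2 ≤ G.card := by
    have h1 : ((Finset.univ.filter fun ε => ¬ ‖R ε‖ ≤ ρ).card : ℝ) * ρ ^ 2 ≤
        ∑ ε, ‖R ε‖ ^ 2 := by
      rw [← nsmul_eq_mul, ← Finset.sum_const]
      calc ∑ ε ∈ Finset.univ.filter (fun ε => ¬ ‖R ε‖ ≤ ρ), ρ ^ 2
          ≤ ∑ ε ∈ Finset.univ.filter (fun ε => ¬ ‖R ε‖ ≤ ρ), ‖R ε‖ ^ 2 := by
            refine Finset.sum_le_sum fun ε hε => ?_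
            have := (Finset.mem_filter.1 hε).2
            push Not at this
            exact pow_le_pow_left₀ hρ0.le this.le 2
        _ ≤ ∑ ε, ‖R ε‖ ^ 2 := Finset.sum_le_sum_of_subset_of_nonneg (Finset.filter_subset _ _)
            (fun ε _ _ => by positivity)
    have h2 : (G.card : ℝ) + ((Finset.univ.filter fun ε => ¬ ‖R ε‖ ≤ ρ).card : ℝ) = 2 ^ k := by
      rw [hG]
      have := Finset.card_filter_add_card_filter_not (s := (Finset.univ : Finset (J → Bool)))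
        (fun ε => ‖R ε‖ ≤ ρ)
      have h3 : (Finset.univ : Finset (J → Bool)).card = 2 ^ k := by
        simp [hk]
      rw [h3] at this
      exact_mod_cast this
    have h3 : 2 ^ k * (15 * (k : ℝ) ^ 3) * d / τ ^ 4 = 2 ^ k / 2 * ρ ^ 2 := by
      rw [hρ2]; ring
    have h4 : ((Finset.univ.filter fun ε => ¬ ‖R ε‖ ≤ ρ).card : ℝ) * ρ ^ 2 ≤
        2 ^ k / 2 * ρ ^ 2 := by linarith
    have h5 := le_of_mul_le_mul_right h4 (by positivity)
    linarith
  -- the cover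
  obtain ⟨μ, hμ⟩ : ∃ μ : ℝ, μ = 8 / 900 * k * τ ^ 2 / d := ⟨_, rfl⟩
  have hμ0 : 0 < μ := by rw [hμ]; positivity
  obtain ⟨l, hl⟩ : ∃ l : ℝ, l = Real.sqrt μ := ⟨_, rfl⟩
  have hl0 : 0 < l := by rw [hl]; exact Real.sqrt_pos.2 hμ0
  have hl2 : l ^ 2 = μ := by rw [hl]; exact Real.sq_sqrt hμ0.le
  obtain ⟨F, hFc, hF⟩ := hC d m c a hL (ρ / l) (τ / l) (by positivity) (by positivity)
  have hex : (ρ / l) ^ 2 / 2 + 9 * d / (8 * (τ / l) ^ 2) ≤ (k : ℝ) / 50 := by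
    have e1 : (ρ / l) ^ 2 / 2 = 1687.5 * (k : ℝ) ^ 2 * d ^ 2 / τ ^ 6 := by
      rw [div_pow, hρ2, hl2, hμ]
      field_simp
      norm_num
    have e2 : 9 * d / (8 * (τ / l) ^ 2) = (k : ℝ) / 100 := by
      rw [div_pow, hl2, hμ]
      field_simp
      norm_num
    rw [e1, e2, hτ6]
    have e3 : 1687.5 * (k : ℝ) ^ 2 * d ^ 2 / (531441 * (d : ℝ) ^ 2 * k) =
        1687.5 / 531441 * k := by
      field_simp
    rw [e3]
    nlinarith
  have hFc2 : (F.card : ℝ) ≤ Real.exp ((k : ℝ) / 50) := hFc.trans (Real.exp_le_exp.2 hex)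
  have hch : ∀ ε : J → Bool, ∃ y : E d, ε ∈ G → y ∈ F ∧ ∃ t : Fin m → ℝ, (∀ j, |t j| ≤ 2 * τ) ∧
      R ε = l • y + ∑ j, (c j * t j) • a j := by
    intro ε
    by_cases hε : ε ∈ G
    · rw [hG] at hε
      have h1 := (Finset.mem_filter.1 hε).2
      have h2 : ‖(1 / l) • R ε‖ ≤ ρ / l := by
        rw [norm_smul, Real.norm_of_nonneg (by positivity)]
        rw [div_mul_eq_mul_div, one_mul]
        exact div_le_div_of_nonneg_right h1 hl0.le
      obtain ⟨y, hy, t, ht, hyt⟩ := hF _ h2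
      refine ⟨y, fun _ => ⟨hy, fun j => l * t j, ?_, ?_⟩⟩
      · intro j
        rw [abs_mul, abs_of_pos hl0]
        calc l * |t j| ≤ l * (2 * (τ / l)) := mul_le_mul_of_nonneg_left (ht j) hl0.le
          _ = 2 * τ := by field_simp
      · have h3 : R ε = l • ((1 / l) • R ε) := by
          rw [smul_smul, mul_one_div_cancel hl0.ne', one_smul]
        rw [h3, eq_add_of_sub_eq hyt, smul_add, add_comm, Finset.smul_sum]
        congr 1
        refine Finset.sum_congr rfl fun j _ => ?_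
        rw [smul_smul]
        congr 1
        ring
    · exact ⟨0, fun h => absurd h hε⟩
  choose φ hφ using hch
  obtain ⟨y, hy, hyc⟩ := pigeon G F φ (fun ε hε => (hφ ε hε).1) (2 ^ k / 2)
    (Real.exp ((k : ℝ) / 50)) hGc hFc2 (Real.exp_pos _) (by positivity)
  have hyc2 : (2 : ℝ) ^ (Fintype.card J) / 2 * Real.exp (-(Fintype.card J : ℝ) / 50) ≤
      ((G.filter fun ε => φ ε = y).card : ℝ) := by
    rw [← hk, neg_div, Real.exp_neg, ← div_eq_mul_inv]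
    exact hyc
  obtain ⟨ε₁, h1, ε₂, h2, h12⟩ := hH J _ (by omega) hyc2
  obtain ⟨g1, p1⟩ := Finset.mem_filter.1 h1
  obtain ⟨g2, p2⟩ := Finset.mem_filter.1 h2
  obtain ⟨-, t1, ht1, e1⟩ := hφ ε₁ g1
  obtain ⟨-, t2, ht2, e2⟩ := hφ ε₂ g2
  rw [p1] at e1
  rw [p2] at e2
  refine ⟨fun g => (sg (ε₁ g) - sg (ε₂ g)) / 2, ?_, ?_,
    fun j => (clip τ (s ε₁ j) - clip τ (s ε₂ j)) / 2 + (t1 j - t2 j) / 2, ?_, ?_⟩
  · intro g
    exact sg_cases _ _
  · rw [← hk] at h12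
    refine h12.trans (le_of_eq ?_)
    have h13 : (Finset.univ.filter fun g => ε₁ g ≠ ε₂ g) =
        Finset.univ.filter fun g => (sg (ε₁ g) - sg (ε₂ g)) / 2 ≠ 0 :=
      Finset.filter_congr fun g _ => sg_ne _ _
    rw [h13]
  · intro j
    have q1 := clip_abs hτ0.le (s ε₁ j)
    have q2 := clip_abs hτ0.le (s ε₂ j)
    have q3 := ht1 j
    have q4 := ht2 j
    rw [abs_le] at *
    constructor <;> linarith [q1.1, q1.2, q2.1, q2.2, q3.1, q3.2, q4.1, q4.2]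
  · have e3 : R ε₁ - R ε₂ = ∑ j, (c j * (t1 j - t2 j)) • a j := by
      rw [e1, e2, add_sub_add_left_eq_sub, ← Finset.sum_sub_distrib]
      refine Finset.sum_congr rfl fun j _ => ?_
      rw [← sub_smul]
      congr 1
      ring
    have e4 : ∑ g, ((sg (ε₁ g) - sg (ε₂ g)) / 2) • ∑ j, (c j * f g j) • a j =
        ∑ j, (c j * ((s ε₁ j - s ε₂ j) / 2)) • a j := by
      simp_rw [Finset.smul_sum]
      rw [Finset.sum_comm]
      refine Finset.sum_congr rfl fun j _ => ?_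
      simp_rw [smul_smul]
      rw [← Finset.sum_smul]
      congr 1
      rw [hs]
      simp only
      rw [← Finset.sum_sub_distrib, Finset.sum_div, Finset.mul_sum]
      refine Finset.sum_congr rfl fun g _ => ?_
      ring
    have e5 : ∑ j, (c j * ((s ε₁ j - s ε₂ j) / 2)) • a j =
        ∑ j, (c j * ((clip τ (s ε₁ j) - clip τ (s ε₂ j)) / 2)) • a j +
          (1 / 2 : ℝ) • (R ε₁ - R ε₂) := by
      rw [hR]
      simp only
      rw [← Finset.sum_sub_distrib, Finset.smul_sum, ← Finset.sum_add_distrib]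
      refine Finset.sum_congr rfl fun j _ => ?_
      rw [← sub_smul, smul_smul, ← add_smul]
      congr 1
      ring
    rw [e4, e5, e3, Finset.smul_sum, ← Finset.sum_add_distrib]
    refine Finset.sum_congr rfl fun j _ => ?_
    rw [smul_smul, ← add_smul]
    congr 1
    ring

end Pool.Agent.U329.ZS
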