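import Pool.Agent.H172R2.ZS.LEW
import Pool.Agent.H172R2.ZS.MAP
import Pool.Agent.H172R2.ZS.ONE
import Pool.Agent.H172R2.ZS.BAS
import Pool.Agent.H172R2.ZS.DET
import Pool.Agent.H172R2.ZS.GAU
import Pool.Agent.H172R2.GS.HAM
import Pool.Agent.U329.ZS.CVR
import Pool.Agent.U329.ZS.M6
import Pool.Agent.U329.ZS.PC
import Pool.Agent.U329.ZS.MAIN

/-!
# The vector balancing constant of zonotopes (helper329)
-/

set_option autoImplicit false

open Finset Module
open scoped RealInnerProductSpace

namespace Pool.Agent.U329.ZS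

open Pool.Agent.H172R2.ZS

theorem main_thm : S_MAIN :=
  MAIN_ok (PC_ok M6_ok BAS_ok (CVR_ok (GAU_ok (MAP_ok ONE_ok BAS_ok DET_ok)))
    Pool.Agent.H172R2.GS.HAM_ok)

/-- balancing bound for at most `D` vectors -/
def HB {V : Type} [AddCommGroup V] [Module ℝ V] {m : ℕ} (v : Fin m → V) (D : ℕ) (H : ℝ) : Prop :=
  ∀ (J : Type) [Fintype J] [DecidableEq J] (f : J → Fin m → ℝ), Fintype.card J ≤ D →
    (∀ g j, |f g j| ≤ 1) →
    ∃ ε : J → ℝ, (∀ g, ε g = 1 ∨ ε g = -1) ∧ ∃ t : Fin m → ℝ, (∀ j, |t j| ≤ H) ∧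
      ∑ g, ε g • ∑ j, f g j • v j = ∑ j, t j • v j

theorem HB_comap {V V' : Type} [AddCommGroup V] [Module ℝ V] [AddCommGroup V'] [Module ℝ V']
    {m : ℕ} (φ : V →ₗ[ℝ] V') (hφ : Function.Injective φ) (v : Fin m → V) (D : ℕ) (H : ℝ)
    (h : HB (fun j => φ (v j)) D H) : HB v D H := by
  intro J _ _ f hJ hf
  obtain ⟨ε, hε, t, ht, h1⟩ := h J f hJ hf
  refine ⟨ε, hε, t, ht, hφ ?_⟩
  simpa [map_sum, map_smul] using h1

theorem HB_map {V V' : Type} [AddCommGroup V] [Module ℝ V] [AddCommGroup V'] [Module ℝ V']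
    {m : ℕ} (φ : V →ₗ[ℝ] V') (v : Fin m → V) (D : ℕ) (H : ℝ)
    (h : HB v D H) : HB (fun j => φ (v j)) D H := by
  intro J _ _ f hJ hf
  obtain ⟨ε, hε, t, ht, h1⟩ := h J f hJ hf
  refine ⟨ε, hε, t, ht, ?_⟩
  have h2 := congrArg φ h1
  simpa [map_sum, map_smul] using h2

theorem span_case : ∃ C : ℝ, 0 < C ∧ ∀ (d m : ℕ) (u : Fin m → E d),
    (∀ x : E d, (∀ j, ⟪u j, x⟫ = 0) → x = 0) → HB u d (C * Real.sqrt d) := by
  obtain ⟨C, hC0, hC⟩ := main_thm
  refine ⟨C, hC0, ?_⟩
  intro d m u hu J _ _ f hJ hf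
  obtain ⟨L, hL⟩ := LEW_ok d m u hu
  have hca : ∀ j, ‖L (u j)‖ • ((‖L (u j)‖)⁻¹ • L (u j)) = L (u j) := by
    intro j
    by_cases h0 : L (u j) = 0
    · rw [h0]; simp
    · rw [smul_smul, mul_inv_cancel₀ (norm_ne_zero_iff.2 h0), one_smul]
  have hLew : Lew (fun j => ‖L (u j)‖) (fun j => (‖L (u j)‖)⁻¹ • L (u j)) := by
    refine ⟨fun j => norm_nonneg _, fun j => ?_, fun x => ?_⟩
    · dsimp only
      by_cases h0 : L (u j) = 0
      · rw [h0]; simp
      · have h1 : ‖(‖L (u j)‖)⁻¹ • L (u j)‖ = 1 := by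
          rw [norm_smul, norm_inv, norm_norm, inv_mul_cancel₀ (norm_ne_zero_iff.2 h0)]
        rw [h1]; ring
    · rw [← hL x]
      refine Finset.sum_congr rfl fun j _ => ?_
      dsimp only
      by_cases h0 : L (u j) = 0
      · rw [h0]; simp
      · rw [real_inner_smul_left]
        have h1 := norm_ne_zero_iff.2 h0
        field_simp
  obtain ⟨ε, hε, t, ht, h1⟩ := hC d m _ _ hLew J f hJ hf
  refine ⟨ε, hε, t, ?_, ?_⟩
  · intro j
    refine (ht j).trans ?_
    rw [mul_assoc]
    refine mul_le_mul_of_nonneg_left ?_ hC0.le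
    rcases Nat.eq_zero_or_pos d with h0 | h0
    · subst h0
      simp
    · have h2 : (Fintype.card J : ℝ) ^ (1 / 6 : ℝ) ≤ (d : ℝ) ^ (1 / 6 : ℝ) :=
        Real.rpow_le_rpow (by positivity) (by exact_mod_cast hJ) (by norm_num)
      have hd : (0 : ℝ) < d := by exact_mod_cast h0
      calc (d : ℝ) ^ (1 / 3 : ℝ) * (Fintype.card J : ℝ) ^ (1 / 6 : ℝ)
          ≤ (d : ℝ) ^ (1 / 3 : ℝ) * (d : ℝ) ^ (1 / 6 : ℝ) :=
            mul_le_mul_of_nonneg_left h2 (by positivity)
        _ = Real.sqrt d := by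
            rw [← Real.rpow_add hd, Real.sqrt_eq_rpow]
            norm_num
  · apply L.injective
    rw [map_sum, map_sum]
    simp_rw [map_smul, map_sum, map_smul]
    have e : ∀ (j : Fin m) (r : ℝ), (‖L (u j)‖ * r) • ((‖L (u j)‖)⁻¹ • L (u j)) = r • L (u j) := by
      intro j r
      rw [mul_comm, mul_smul, hca]
    simp only [e] at h1
    exact h1

theorem sub_case : ∃ C : ℝ, 0 < C ∧ ∀ (V : Type) [AddCommGroup V] [Module ℝ V]
    [FiniteDimensional ℝ V] (m : ℕ) (v : Fin m → V), Submodule.span ℝ (Set.range v) = ⊤ →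
    HB v (finrank ℝ V) (C * Real.sqrt (finrank ℝ V)) := by
  obtain ⟨C, hC0, hC⟩ := span_case
  refine ⟨C, hC0, ?_⟩
  intro V _ _ _ m v hv
  have hfr : finrank ℝ V = finrank ℝ (E (finrank ℝ V)) := by simp
  obtain ⟨e⟩ : Nonempty (V ≃ₗ[ℝ] E (finrank ℝ V)) := ⟨LinearEquiv.ofFinrankEq _ _ hfr⟩
  refine HB_comap e.toLinearMap e.injective v _ _ (hC _ _ _ ?_)
  intro x hx
  have h1 : ∀ y : V, ⟪e y, x⟫ = 0 := by
    intro y
    have hy : y ∈ Submodule.span ℝ (Set.range v) := by rw [hv]; trivial
    induction hy using Submodule.span_induction with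
    | mem y hy =>
      obtain ⟨j, rfl⟩ := hy
      exact hx j
    | zero => simp
    | add y z _ _ h1 h2 => rw [map_add, inner_add_left, h1, h2, add_zero]
    | smul r y _ h1 => rw [map_smul, real_inner_smul_left, h1, mul_zero]
  have h2 := h1 (e.symm x)
  rw [e.apply_symm_apply] at h2
  exact inner_self_eq_zero.1 h2

/-- rounding, Barany and Grinberg -/
theorem BG {V : Type} [AddCommGroup V] [Module ℝ V] [FiniteDimensional ℝ V] {n : ℕ}
    (u : Fin n → V) : ∃ x : Fin n → ℝ, (∀ i, |x i| ≤ 1) ∧ ∑ i, x i • u i = 0 ∧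
      (Finset.univ.filter fun i => |x i| < 1).card ≤ finrank ℝ V := by
  classical
  have key : ∀ N : ℕ, ∀ x : Fin n → ℝ, (∀ i, |x i| ≤ 1) → ∑ i, x i • u i = 0 →
      (Finset.univ.filter fun i => |x i| < 1).card = N →
      ∃ x : Fin n → ℝ, (∀ i, |x i| ≤ 1) ∧ ∑ i, x i • u i = 0 ∧
      (Finset.univ.filter fun i => |x i| < 1).card ≤ finrank ℝ V := by
    intro N
    induction N using Nat.strong_induction_on with
    | _ N ih =>
      intro x hx hsum hN
      rcases Nat.lt_or_ge (finrank ℝ V) N with hlt | hge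
      · -- dependent
        have hdep : ¬ LinearIndependent ℝ (fun i : {i : Fin n // |x i| < 1} => u i.1) := by
          intro hli
          have := hli.fintype_card_le_finrank
          rw [Fintype.card_subtype, hN] at this
          omega
        rw [Fintype.not_linearIndependent_iff] at hdep
        obtain ⟨w, hw, i0, hi0⟩ := hdep
        obtain ⟨W, hW⟩ : ∃ W : Fin n → ℝ, W = fun i => if h : |x i| < 1 then w ⟨i, h⟩ else 0 :=
          ⟨_, rfl⟩
        have hWs : ∑ i, W i • u i = 0 := by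
          rw [← hw, ← Finset.sum_filter_add_sum_filter_not Finset.univ (fun i => |x i| < 1)]
          have z : ∑ i ∈ Finset.univ.filter (fun i => ¬ |x i| < 1), W i • u i = 0 := by
            refine Finset.sum_eq_zero fun i hi => ?_
            rw [hW]
            simp only
            rw [dif_neg (Finset.mem_filter.1 hi).2, zero_smul]
          rw [z, add_zero, ← Finset.sum_subtype_eq_sum_filter]
          simp only [Finset.subtype_univ]
          refine Finset.sum_congr rfl fun i _ => ?_
          rw [hW]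
          simp only
          rw [dif_pos i.2]
        have hWlt : ∀ i, W i ≠ 0 → |x i| < 1 := by
          intro i hi
          by_contra hcon
          apply hi
          rw [hW]
          simp only
          rw [dif_neg hcon]
        have hW0 : W i0.1 ≠ 0 := by
          rw [hW]
          simp only
          rw [dif_pos i0.2]
          exact hi0
        obtain ⟨T, hT⟩ : ∃ T : Fin n → ℝ,
            T = fun i => if 0 < W i then (1 - x i) / W i else (1 + x i) / (-W i) := ⟨_, rfl⟩
        obtain ⟨j, hj, hjm⟩ := Finset.exists_min_image (Finset.univ.filter fun i => W i ≠ 0) T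
          ⟨i0.1, Finset.mem_filter.2 ⟨Finset.mem_univ _, hW0⟩⟩
        have hj' := (Finset.mem_filter.1 hj).2
        have hpos : ∀ i, W i ≠ 0 → 0 < T i := by
          intro i hi
          have h1 := abs_lt.1 (hWlt i hi)
          rw [hT]
          simp only
          split_ifs with h2
          · exact div_pos (by linarith) h2
          · have h3 : W i < 0 := lt_of_le_of_ne (not_lt.1 h2) hi
            exact div_pos (by linarith) (by linarith)
        have hTj := hpos j hj'
        have hle : ∀ i, |x i + T j * W i| ≤ 1 := by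
          intro i
          by_cases hi : W i = 0
          · rw [hi, mul_zero, add_zero]; exact hx i
          · have h1 := abs_lt.1 (hWlt i hi)
            have h2 := hjm i (Finset.mem_filter.2 ⟨Finset.mem_univ _, hi⟩)
            have h3 : T i = if 0 < W i then (1 - x i) / W i else (1 + x i) / (-W i) := by rw [hT]
            rw [abs_le]
            split_ifs at h3 with h4
            · have h5 : T j * W i ≤ T i * W i := mul_le_mul_of_nonneg_right h2 h4.le
              have h6 : T i * W i = 1 - x i := by rw [h3]; field_simp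
              have h7 : 0 ≤ T j * W i := by positivity
              constructor <;> linarith
            · have h4' : W i < 0 := lt_of_le_of_ne (not_lt.1 h4) hi
              have h5 : T j * (-W i) ≤ T i * (-W i) :=
                mul_le_mul_of_nonneg_right h2 (by linarith)
              have h6 : T i * (-W i) = 1 + x i := by rw [h3]; field_simp
              have h7 : 0 ≤ T j * (-W i) := mul_nonneg hTj.le (by linarith)
              constructor <;> nlinarith
        have hjeq : |x j + T j * W j| = 1 := by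
          have h3 : T j = if 0 < W j then (1 - x j) / W j else (1 + x j) / (-W j) := by rw [hT]
          split_ifs at h3 with h4
          · have h6 : T j * W j = 1 - x j := by rw [h3]; field_simp
            rw [h6]; norm_num
          · have h6 : T j * (-W j) = 1 + x j := by rw [h3]; field_simp
            have h7 : x j + T j * W j = -1 := by linarith
            rw [h7]; norm_num
        refine ih _ ?_ (fun i => x i + T j * W i) hle ?_ rfl
        · rw [← hN]
          refine Finset.card_lt_card ?_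
          rw [Finset.ssubset_iff_of_subset]
          · refine ⟨j, Finset.mem_filter.2 ⟨Finset.mem_univ _, hWlt j hj'⟩, ?_⟩
            rw [Finset.mem_filter]
            rintro ⟨-, h⟩
            rw [hjeq] at h
            exact lt_irrefl _ h
          · intro i hi
            rw [Finset.mem_filter] at hi ⊢
            refine ⟨Finset.mem_univ _, ?_⟩
            by_cases hi0 : W i = 0
            · have := hi.2
              rwa [hi0, mul_zero, add_zero] at this
            · exact hWlt i hi0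
        · simp_rw [add_smul, mul_smul]
          rw [Finset.sum_add_distrib, hsum, ← Finset.smul_sum, hWs, smul_zero, add_zero]
      · exact ⟨x, hx, hsum, by omega⟩
  exact key _ (fun _ => 0) (by simp) (by simp) rfl

/-- rounding of dyadic points -/
theorem LSV {V : Type} [AddCommGroup V] [Module ℝ V] {m : ℕ} (v : Fin m → V) (D : ℕ) (H : ℝ)
    (h : HB v D H) (J : Type) [Fintype J] [DecidableEq J] (f : J → Fin m → ℝ)
    (hJ : Fintype.card J ≤ D) (hf : ∀ g j, |f g j| ≤ 1) (N : ℕ) :
    ∀ x : J → ℝ, (∀ g, 0 ≤ x g ∧ x g ≤ 1) → (∀ g, ∃ z : ℤ, x g * 2 ^ N = z) →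
    ∃ ε : J → ℝ, (∀ g, ε g = 1 ∨ ε g = 0) ∧ ∃ t : Fin m → ℝ, (∀ j, |t j| ≤ H * (1 - 1 / 2 ^ N)) ∧
      ∑ g, (ε g - x g) • ∑ j, f g j • v j = ∑ j, t j • v j := by
  classical
  induction N with
  | zero =>
    intro x hx hz
    refine ⟨x, ?_, fun _ => 0, by simp, by simp⟩
    intro g
    obtain ⟨z, hz⟩ := hz g
    rw [pow_zero, mul_one] at hz
    have h1 := hx g
    rw [hz] at h1 ⊢
    have h2 : (0 : ℤ) ≤ z := by exact_mod_cast h1.1
    have h3 : z ≤ 1 := by exact_mod_cast h1.2
    have h4 : z = 0 ∨ z = 1 := by omega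
    rcases h4 with rfl | rfl
    · right; simp
    · left; simp
  | succ N ih =>
    intro x hx hz
    choose z hz using hz
    obtain ⟨s, hs, t0, ht0, h1⟩ := h {g : J // Odd (z g)} (fun g => f g.1)
      ((Fintype.card_subtype_le _).trans hJ) (fun g j => hf g.1 j)
    obtain ⟨S, hS⟩ : ∃ S : J → ℝ, S = fun g => if hg : Odd (z g) then s ⟨g, hg⟩ else 0 := ⟨_, rfl⟩
    have hSs : ∑ g, S g • ∑ j, f g j • v j = ∑ j, t0 j • v j := by
      rw [← h1, ← Finset.sum_filter_add_sum_filter_not Finset.univ (fun g => Odd (z g))]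
      have zz : ∑ g ∈ Finset.univ.filter (fun g => ¬ Odd (z g)), S g • ∑ j, f g j • v j = 0 := by
        refine Finset.sum_eq_zero fun i hi => ?_
        rw [hS]
        simp only
        rw [dif_neg (Finset.mem_filter.1 hi).2, zero_smul]
      rw [zz, add_zero, ← Finset.sum_subtype_eq_sum_filter]
      simp only [Finset.subtype_univ]
      refine Finset.sum_congr rfl fun i _ => ?_
      rw [hS]
      simp only
      rw [dif_pos i.2]
    have h2N : (0 : ℝ) < 2 ^ N := by positivity
    have hxz : ∀ g, x g = z g / 2 ^ (N + 1) := by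
      intro g
      rw [eq_div_iff (by positivity)]
      exact hz g
    have hzb : ∀ g, 0 ≤ z g ∧ z g ≤ 2 ^ (N + 1) := by
      intro g
      have h3 := hx g
      rw [hxz g] at h3
      constructor
      · have h4 : (0 : ℝ) ≤ z g := by
          by_contra hcon
          push Not at hcon
          have := div_neg_of_neg_of_pos hcon (by positivity : (0 : ℝ) < 2 ^ (N + 1))
          linarith [h3.1]
        exact_mod_cast h4
      · have h4 := h3.2
        rw [div_le_one (by positivity)] at h4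
        exact_mod_cast h4
    have hS1 : ∀ g, ∃ z' : ℤ, (z g : ℝ) + S g = 2 * z' ∧ 0 ≤ z' ∧ z' ≤ 2 ^ N := by
      intro g
      have hb := hzb g
      rw [pow_succ] at hb
      by_cases hg : Odd (z g)
      · obtain ⟨r, hr⟩ := id hg
        have e : S g = s ⟨g, hg⟩ := by rw [hS]; simp only; rw [dif_pos hg]
        rcases hs ⟨g, hg⟩ with h3 | h3
        · refine ⟨r + 1, ?_, by omega, by omega⟩
          rw [e, h3, hr]; push_cast; ring
        · refine ⟨r, ?_, by omega, by omega⟩
          rw [e, h3, hr]; push_cast; ring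
      · have e : S g = 0 := by rw [hS]; simp only; rw [dif_neg hg]
        rw [Int.not_odd_iff_even] at hg
        obtain ⟨r, hr⟩ := hg
        refine ⟨r, ?_, by omega, by omega⟩
        rw [e, hr]; push_cast; ring
    choose z' hz' using hS1
    have hx' : ∀ g, x g + S g / 2 ^ (N + 1) = z' g / 2 ^ N := by
      intro g
      rw [hxz g, ← add_div, (hz' g).1, pow_succ]
      field_simp
    obtain ⟨ε, hε, t, ht, h2⟩ := ih (fun g => x g + S g / 2 ^ (N + 1)) (fun g => by
      rw [hx' g]
      have h3 := (hz' g).2.1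
      have h4 := (hz' g).2.2
      constructor
      · have : (0 : ℝ) ≤ z' g := by exact_mod_cast h3
        positivity
      · rw [div_le_one h2N]
        exact_mod_cast h4) (fun g => ⟨z' g, by rw [hx' g]; field_simp⟩)
    refine ⟨ε, hε, fun j => t j + t0 j / 2 ^ (N + 1), ?_, ?_⟩
    · intro j
      have h3 := ht j
      have h4 := ht0 j
      have h5 : |t0 j / 2 ^ (N + 1)| ≤ H / 2 ^ (N + 1) := by
        rw [abs_div, abs_of_pos (by positivity : (0 : ℝ) < 2 ^ (N + 1))]
        exact div_le_div_of_nonneg_right h4 (by positivity)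
      have h6 := abs_add_le (t j) (t0 j / 2 ^ (N + 1))
      have h7 : H * (1 - 1 / 2 ^ N) + H / 2 ^ (N + 1) = H * (1 - 1 / 2 ^ (N + 1)) := by
        rw [pow_succ]
        field_simp
        ring
      linarith
    · have e : ∀ g, (ε g - x g) • ∑ j, f g j • v j =
          (ε g - (x g + S g / 2 ^ (N + 1))) • ∑ j, f g j • v j +
            (1 / 2 ^ (N + 1) : ℝ) • (S g • ∑ j, f g j • v j) := by
        intro g
        rw [smul_smul, ← add_smul]
        congr 1
        ring
      rw [Finset.sum_congr rfl fun g _ => e g, Finset.sum_add_distrib, h2, ← Finset.smul_sum, hSs,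
        Finset.smul_sum, ← Finset.sum_add_distrib]
      refine Finset.sum_congr rfl fun j _ => ?_
      rw [smul_smul, ← add_smul]
      congr 1
      ring

/-- rounding of real points -/
theorem LSVreal {V : Type} [AddCommGroup V] [Module ℝ V] {m : ℕ} (v : Fin m → V) (D : ℕ) (H : ℝ)
    (hH : 0 ≤ H) (h : HB v D H) (J : Type) [Fintype J] [DecidableEq J] (f : J → Fin m → ℝ)
    (hJ : Fintype.card J ≤ D) (hf : ∀ g j, |f g j| ≤ 1) (x : J → ℝ) (hx : ∀ g, |x g| ≤ 1) :
    ∃ ε : J → ℝ, (∀ g, ε g = 1 ∨ ε g = -1) ∧ ∃ t : Fin m → ℝ,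
      (∀ j, |t j| ≤ 2 * (H + Real.sqrt D)) ∧
      ∑ g, (ε g - x g) • ∑ j, f g j • v j = ∑ j, t j • v j := by
  classical
  obtain ⟨N, hN⟩ : ∃ N : ℕ, N = Fintype.card J := ⟨_, rfl⟩
  have h2N : (0 : ℝ) < 2 ^ N := by positivity
  obtain ⟨y, hy⟩ : ∃ y : J → ℝ, y = fun g => (⌊(x g + 1) / 2 * 2 ^ N⌋ : ℝ) / 2 ^ N := ⟨_, rfl⟩
  have hb : ∀ g, y g ≤ (x g + 1) / 2 ∧ (x g + 1) / 2 - y g ≤ 1 / 2 ^ N ∧ 0 ≤ y g := by
    intro g
    have h1 := abs_le.1 (hx g)
    rw [hy]
    simp only
    refine ⟨?_, ?_, ?_⟩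
    · rw [div_le_iff₀ h2N]
      exact Int.floor_le _
    · have h3 := Int.lt_floor_add_one ((x g + 1) / 2 * 2 ^ N)
      rw [sub_le_iff_le_add, ← add_div, le_div_iff₀ h2N]
      linarith
    · have h4 : (0 : ℝ) ≤ (⌊(x g + 1) / 2 * 2 ^ N⌋ : ℝ) := by
        have : (0 : ℤ) ≤ ⌊(x g + 1) / 2 * 2 ^ N⌋ := Int.floor_nonneg.2 (by
          have : 0 ≤ (x g + 1) / 2 := by linarith
          positivity)
        exact_mod_cast this
      positivity
  obtain ⟨ε, hε, t, ht, h1⟩ := LSV v D H h J f hJ hf N y (fun g => by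
    have := hb g
    have h1 := abs_le.1 (hx g)
    exact ⟨this.2.2, by linarith [this.1]⟩) (fun g => ⟨_, by rw [hy]; field_simp⟩)
  refine ⟨fun g => 2 * ε g - 1, ?_, fun j => 2 * (t j + ∑ g, (y g - (x g + 1) / 2) * f g j),
    ?_, ?_⟩
  · intro g
    rcases hε g with h2 | h2
    · left; simp only; rw [h2]; norm_num
    · right; simp only; rw [h2]; norm_num
  · intro j
    have h2 := ht j
    have h3 : |∑ g, (y g - (x g + 1) / 2) * f g j| ≤ Real.sqrt D := by
      refine (Finset.abs_sum_le_sum_abs _ _).trans ?_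
      have h4 : ∀ g ∈ (Finset.univ : Finset J), |(y g - (x g + 1) / 2) * f g j| ≤ 1 / 2 ^ N := by
        intro g _
        have h5 := hb g
        rw [abs_mul]
        have h6 : |y g - (x g + 1) / 2| ≤ 1 / 2 ^ N := by
          rw [abs_le]
          constructor <;> linarith [h5.1, h5.2.1, (by positivity : (0 : ℝ) < 1 / 2 ^ N)]
        calc |y g - (x g + 1) / 2| * |f g j| ≤ 1 / 2 ^ N * 1 :=
              mul_le_mul h6 (hf g j) (abs_nonneg _) (by positivity)
          _ = 1 / 2 ^ N := mul_one _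
      refine (Finset.sum_le_sum h4).trans ?_
      rw [Finset.sum_const, nsmul_eq_mul, Finset.card_univ, ← hN]
      rcases Nat.eq_zero_or_pos N with h0 | h0
      · rw [h0]; simp
      · have h7 : (N : ℝ) ≤ 2 ^ N := by exact_mod_cast Nat.lt_two_pow_self.le
        have h8 : (N : ℝ) * (1 / 2 ^ N) ≤ 1 := by
          rw [mul_one_div, div_le_one h2N]
          exact h7
        refine h8.trans ?_
        rw [Real.one_le_sqrt]
        have : 1 ≤ D := by omega
        exact_mod_cast this
    have h4 : H * (1 - 1 / 2 ^ N) ≤ H := by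
      have : 0 < 1 / (2 : ℝ) ^ N := by positivity
      nlinarith
    rw [abs_mul, abs_of_pos (by norm_num : (0 : ℝ) < 2)]
    have h5 := abs_add_le (t j) (∑ g, (y g - (x g + 1) / 2) * f g j)
    linarith
  · have e : ∀ g, (2 * ε g - 1 - x g) • ∑ j, f g j • v j =
        (2 : ℝ) • ((ε g - y g) • ∑ j, f g j • v j) +
          (2 : ℝ) • ((y g - (x g + 1) / 2) • ∑ j, f g j • v j) := by
      intro g
      rw [smul_smul, smul_smul, ← add_smul]
      congr 1
      ring
    rw [Finset.sum_congr rfl fun g _ => e g, Finset.sum_add_distrib, ← Finset.smul_sum, h1,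
      ← Finset.smul_sum]
    have e2 : ∑ g, (y g - (x g + 1) / 2) • ∑ j, f g j • v j =
        ∑ j, (∑ g, (y g - (x g + 1) / 2) * f g j) • v j := by
      simp_rw [Finset.smul_sum, smul_smul]
      rw [Finset.sum_comm]
      refine Finset.sum_congr rfl fun j _ => ?_
      rw [Finset.sum_smul]
    rw [e2, ← smul_add, ← Finset.sum_add_distrib, Finset.smul_sum]
    refine Finset.sum_congr rfl fun j _ => ?_
    rw [← add_smul, smul_smul]

/-- all numbers of vectors -/
theorem full : ∃ C : ℝ, 0 < C ∧ ∀ (V : Type) [AddCommGroup V] [Module ℝ V]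
    [FiniteDimensional ℝ V] (m : ℕ) (v : Fin m → V), Submodule.span ℝ (Set.range v) = ⊤ →
    ∀ (n : ℕ) (f : Fin n → Fin m → ℝ), (∀ i j, |f i j| ≤ 1) →
    ∃ ε : Fin n → ℝ, (∀ i, ε i = 1 ∨ ε i = -1) ∧ ∃ t : Fin m → ℝ,
      (∀ j, |t j| ≤ C * Real.sqrt (finrank ℝ V)) ∧
      ∑ i, ε i • ∑ j, f i j • v j = ∑ j, t j • v j := by
  classical
  obtain ⟨C, hC0, hC⟩ := sub_case
  refine ⟨2 * (C + 1), by positivity, ?_⟩
  intro V _ _ _ m v hv n f hf
  obtain ⟨x, hx, hx0, hxc⟩ := BG (fun i => ∑ j, f i j • v j)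
  have hHB := hC V m v hv
  obtain ⟨ε, hε, t, ht, h1⟩ := LSVreal v _ _ (by positivity) hHB {i : Fin n // |x i| < 1}
    (fun i => f i.1) (by rw [Fintype.card_subtype]; exact hxc) (fun i j => hf i.1 j)
    (fun i => x i.1) (fun i => hx i.1)
  refine ⟨fun i => if h : |x i| < 1 then ε ⟨i, h⟩ else x i, ?_, t, ?_, ?_⟩
  · intro i
    by_cases h : |x i| < 1
    · simp only [h, dif_pos]
      exact hε _
    · simp only [h, dif_neg, not_false_eq_true]
      have h2 : |x i| = 1 := le_antisymm (hx i) (not_lt.1 h)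
      exact eq_or_eq_neg_of_abs_eq h2
  · intro j
    refine (ht j).trans (le_of_eq ?_)
    ring
  · have e : ∀ i : Fin n, (if h : |x i| < 1 then ε ⟨i, h⟩ else x i) • ∑ j, f i j • v j =
        x i • ∑ j, f i j • v j +
          (if h : |x i| < 1 then (ε ⟨i, h⟩ - x i) • ∑ j, f i j • v j else 0) := by
      intro i
      by_cases h : |x i| < 1
      · simp only [h, dif_pos]
        rw [← add_smul]
        congr 1
        ring
      · simp only [h, dif_neg, not_false_eq_true, add_zero]
    rw [Finset.sum_congr rfl fun i _ => e i, Finset.sum_add_distrib, hx0, zero_add, ← h1,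
      ← Finset.sum_filter_add_sum_filter_not Finset.univ (fun i => |x i| < 1)]
    have z : ∑ i ∈ Finset.univ.filter (fun i => ¬ |x i| < 1),
        (if h : |x i| < 1 then (ε ⟨i, h⟩ - x i) • ∑ j, f i j • v j else 0) = 0 := by
      refine Finset.sum_eq_zero fun i hi => ?_
      rw [dif_neg (Finset.mem_filter.1 hi).2]
    rw [z, add_zero, ← Finset.sum_subtype_eq_sum_filter]
    simp only [Finset.subtype_univ]
    refine Finset.sum_congr rfl fun i _ => ?_
    rw [dif_pos i.2]

end Pool.Agent.U329.ZS
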